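import Pool.Agent.H18.HIT.Targets

/-!
# Row LYO
-/

open MvPolynomial
open Pool.Agent.H12.ZD (pmap v O Res DenseOrbit NoInv)
open Pool.Agent.H18.HIT

namespace Pool.Agent.H45.HIT

theorem key {A₀ B₀ : Type} [CommRing A₀] [IsDomain A₀] [IsIntegrallyClosed A₀] [CommRing B₀]
    [IsDomain B₀] [UniqueFactorizationMonoid B₀] [Algebra A₀ B₀]
    (hinj : Function.Injective (algebraMap A₀ B₀)) (S : Submonoid A₀) (hS : (0 : A₀) ∉ S)
    (A B : Type) [CommRing A] [Algebra A₀ A] [IsLocalization S A]
    [CommRing B] [Algebra B₀ B] [IsLocalization (Algebra.algebraMapSubmonoid B₀ S) B]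
    [Algebra A B] [Algebra A₀ B] [IsScalarTower A₀ A B] [IsScalarTower A₀ B₀ B]
    [Algebra.IsIntegral A B]
    (W : A₀) (Y : B₀) (M : Ideal A₀) [M.IsPrime] (hc : Disjoint (S : Set A₀) (M : Set A₀))
    (hW : Prime W) (hWM : W ∈ M) (hY : Prime Y) (hYW : Y ∣ algebraMap A₀ B₀ W)
    (hYc : ∀ s ∈ S, ¬ Y ∣ algebraMap A₀ B₀ s) :
    ∃ Q : Ideal B₀, Q.IsPrime ∧ Y ∈ Q ∧ Q.comap (algebraMap A₀ B₀) = M := by
  have hT : (0 : B₀) ∉ Algebra.algebraMapSubmonoid B₀ S := by
    rintro ⟨s, hs, h0⟩
    have h1 : s = 0 := hinj (by rw [map_zero]; exact h0)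
    exact hS (h1 ▸ hs)
  have hSd : S ≤ nonZeroDivisors A₀ := fun s hs => mem_nonZeroDivisors_of_ne_zero
    (fun h => hS (h ▸ hs))
  have hTd : Algebra.algebraMapSubmonoid B₀ S ≤ nonZeroDivisors B₀ := fun s hs =>
    mem_nonZeroDivisors_of_ne_zero (fun h => hT (h ▸ hs))
  have : IsDomain A := IsLocalization.isDomain_of_le_nonZeroDivisors A hSd
  have : IsDomain B := IsLocalization.isDomain_of_le_nonZeroDivisors B hTd
  have : IsIntegrallyClosed A := isIntegrallyClosed_of_isLocalization A S hSd
  have hA : Function.Injective (algebraMap A₀ A) := IsLocalization.injective A hSd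
  have hB : Function.Injective (algebraMap B₀ B) := IsLocalization.injective B hTd
  have hcomp : ∀ a : A₀, algebraMap A B (algebraMap A₀ A a) =
      algebraMap B₀ B (algebraMap A₀ B₀ a) := by
    intro a
    rw [← IsScalarTower.algebraMap_apply, ← IsScalarTower.algebraMap_apply]
  have hAB : Function.Injective (algebraMap A B) := by
    rw [injective_iff_map_eq_zero]
    intro a ha
    obtain ⟨⟨x, s⟩, hx⟩ := IsLocalization.surj S a
    have h1 : algebraMap A B (algebraMap A₀ A x) = 0 := by
      rw [← hx, map_mul, ha, zero_mul]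
    rw [hcomp] at h1
    have h2 : x = 0 := by
      apply hinj
      apply hB
      rw [h1, map_zero, map_zero]
    rw [h2, map_zero] at hx
    exact (mul_eq_zero.mp hx).resolve_right (IsLocalization.map_units A s).ne_zero
  have : FaithfulSMul A B := (faithfulSMul_iff_algebraMap_injective A B).mpr hAB
  -- the prime `Y`
  let PY : Ideal B₀ := Ideal.span {Y}
  have hPY : PY.IsPrime := (Ideal.span_singleton_prime hY.ne_zero).mpr hY
  have hPYd : Disjoint (Algebra.algebraMapSubmonoid B₀ S : Set B₀) (PY : Set B₀) := by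
    rw [Set.disjoint_left]
    rintro _ ⟨s, hs, rfl⟩ h
    exact hYc s hs (Ideal.mem_span_singleton.mp h)
  let Yb : Ideal B := PY.map (algebraMap B₀ B)
  have hYb : Yb.IsPrime := IsLocalization.isPrime_of_isPrime_disjoint
    (Algebra.algebraMapSubmonoid B₀ S) B PY hPY hPYd
  have hYbc : Yb.comap (algebraMap B₀ B) = PY := IsLocalization.under_map_of_isPrime_disjoint
    (Algebra.algebraMapSubmonoid B₀ S) B hPY hPYd
  -- the prime `W`
  let PW : Ideal A₀ := Ideal.span {W}
  have hPW : PW.IsPrime := (Ideal.span_singleton_prime hW.ne_zero).mpr hW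
  have hPWM : PW ≤ M := (Ideal.span_singleton_le_iff_mem _).mpr hWM
  have hPWd : Disjoint (S : Set A₀) (PW : Set A₀) := hc.mono_right hPWM
  let Wa : Ideal A := PW.map (algebraMap A₀ A)
  have hWa : Wa.IsPrime := IsLocalization.isPrime_of_isPrime_disjoint S A PW hPW hPWd
  -- contraction of `Y`
  let q : Ideal A := Yb.under A
  have hWq : Wa ≤ q := by
    apply Ideal.map_le_of_le_comap
    rw [Ideal.span_singleton_le_iff_mem]
    change algebraMap A B (algebraMap A₀ A W) ∈ Yb
    rw [hcomp]
    exact Ideal.mem_map_of_mem _ (Ideal.mem_span_singleton.mpr hYW)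
  have hq : Wa = q := by
    obtain ⟨P, hPle, hP, hPo⟩ := Ideal.exists_ideal_le_liesOver_of_le (p := Wa) (q := q) Yb hWq
    have h1 : P = Yb := by
      apply le_antisymm hPle
      have hPc : (P.comap (algebraMap B₀ B)).IsPrime := Ideal.comap_isPrime _ _
      have h2 : P.comap (algebraMap B₀ B) ≠ ⊥ := by
        intro h
        have h3 : algebraMap A₀ B₀ W ∈ P.comap (algebraMap B₀ B) := by
          rw [Ideal.mem_comap, ← hcomp]
          have h4 : algebraMap A₀ A W ∈ Wa := Ideal.mem_map_of_mem _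
            (Ideal.mem_span_singleton_self W)
          rw [hPo.over] at h4
          exact h4
        rw [h, Ideal.mem_bot] at h3
        exact hW.ne_zero (hinj (by rw [h3, map_zero]))
      obtain ⟨π, hπ, hπp⟩ := Ideal.IsPrime.exists_mem_prime_of_ne_bot hPc h2
      have h5 : π ∈ PY := by
        rw [← hYbc]
        exact Ideal.comap_mono hPle hπ
      have h6 : Associated Y π := hY.associated_of_dvd hπp (Ideal.mem_span_singleton.mp h5)
      have h7 : Y ∈ P.comap (algebraMap B₀ B) := (Ideal.mem_iff_of_associated h6).mpr hπ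
      apply Ideal.map_le_of_le_comap
      rw [Ideal.span_singleton_le_iff_mem]
      exact h7
    subst h1
    exact hPo.over
  -- going up
  let Ma : Ideal A := M.map (algebraMap A₀ A)
  have hMa : Ma.IsPrime := IsLocalization.isPrime_of_isPrime_disjoint S A M inferInstance hc
  have hMac : Ma.comap (algebraMap A₀ A) = M :=
    IsLocalization.under_map_of_isPrime_disjoint S A inferInstance hc
  obtain ⟨Q, hQge, hQ, hQo⟩ := Ideal.exists_ideal_over_prime_of_isIntegral_of_isPrime Ma Yb
    (by
      change q ≤ Ma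
      rw [← hq]
      exact Ideal.map_mono hPWM)
  refine ⟨Q.comap (algebraMap B₀ B), Ideal.comap_isPrime _ _, ?_, ?_⟩
  · exact hQge (Ideal.mem_map_of_mem _ (Ideal.mem_span_singleton_self Y))
  · ext a
    rw [Ideal.mem_comap, Ideal.mem_comap, ← hcomp, ← Ideal.mem_comap, hQo, ← Ideal.mem_comap, hMac]


theorem key2 {A₀ B₀ : Type} [CommRing A₀] [IsDomain A₀] [IsIntegrallyClosed A₀] [CommRing B₀]
    [IsDomain B₀] [UniqueFactorizationMonoid B₀] [Algebra A₀ B₀]
    (hinj : Function.Injective (algebraMap A₀ B₀)) (c W : A₀) (Y : B₀) (M : Ideal A₀) [M.IsPrime]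
    (hc : c ∉ M) (hW : Prime W) (hWM : W ∈ M) (hY : Prime Y) (hYW : Y ∣ algebraMap A₀ B₀ W)
    (hYc : ¬ Y ∣ algebraMap A₀ B₀ c) (gen : Set B₀) (hgen : Algebra.adjoin A₀ gen = ⊤)
    (hint : ∀ b ∈ gen, ∃ (p : Polynomial A₀) (m : ℕ), p.leadingCoeff = c ^ m ∧
      Polynomial.aeval b p = 0) :
    ∃ Q : Ideal B₀, Q.IsPrime ∧ Y ∈ Q ∧ Q.comap (algebraMap A₀ B₀) = M := by
  let S : Submonoid A₀ := Submonoid.powers c
  let T : Submonoid B₀ := Algebra.algebraMapSubmonoid B₀ S
  have hS : (0 : A₀) ∉ S := by
    rintro ⟨n, hn⟩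
    have h : c ^ n ∈ M := by
      change c ^ n = 0 at hn
      rw [hn]
      exact M.zero_mem
    exact hc (Ideal.IsPrime.mem_of_pow_mem inferInstance n h)
  have hg : ∀ b : B₀, IsIntegral (Localization S) (algebraMap B₀ (Localization T) b) := by
    intro b
    have hb : b ∈ Algebra.adjoin A₀ gen := by
      rw [hgen]
      trivial
    induction hb using Algebra.adjoin_induction with
    | mem x hx =>
      obtain ⟨p, m, hp, hp0⟩ := hint x hx
      exact is_integral_localization_at_leadingCoeff (Rₘ := Localization S)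
        (Sₘ := Localization T) (M := S) p hp0 (by
          rw [hp]
          exact ⟨m, rfl⟩)
    | algebraMap r =>
      rw [← IsScalarTower.algebraMap_apply A₀ B₀ (Localization T),
        IsScalarTower.algebraMap_apply A₀ (Localization S) (Localization T)]
      exact isIntegral_algebraMap
    | add x y _ _ hx hy =>
      rw [map_add]
      exact hx.add hy
    | mul x y _ _ hx hy =>
      rw [map_mul]
      exact hx.mul hy
  have hAI : Algebra.IsIntegral (Localization S) (Localization T) := by
    constructor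
    intro x
    obtain ⟨⟨s, ⟨u, hu⟩⟩, hx⟩ := IsLocalization.surj T x
    obtain ⟨v, hv, hvu⟩ := hu
    obtain ⟨v', hv'⟩ := isUnit_iff_exists_inv'.1 (IsLocalization.map_units (Localization S)
      (⟨v, hv⟩ : S))
    refine IsIntegral.of_mul_unit (x := x) (y := algebraMap B₀ (Localization T) u) (r := v') ?_ ?_
    · have h1 := congrArg (algebraMap (Localization S) (Localization T)) hv'
      rw [map_mul, map_one, ← IsScalarTower.algebraMap_apply,
        IsScalarTower.algebraMap_apply A₀ B₀ (Localization T)] at h1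
      rw [← hvu]
      exact h1
    · have h2 := hg s
      rw [← hx] at h2
      exact h2
  exact key hinj S hS (Localization S) (Localization T) W Y M
    (by
      rw [Set.disjoint_left]
      rintro _ ⟨n, rfl⟩ h
      exact hc (Ideal.IsPrime.mem_of_pow_mem inferInstance n h))
    hW hWM hY hYW
    (by
      rintro _ ⟨n, rfl⟩ h
      apply hYc
      rw [map_pow] at h
      exact hY.dvd_of_dvd_pow h)

theorem pf_LYO : T_LYO := by
  intro N k _ _ G c₁ W Y z hinj hint hzc hW hzW hY hYW hYc
  have hM : (RingHom.ker (eval z : Po N k →+* k)).IsPrime := RingHom.ker_isPrime _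
  have hXgen : ∀ x ∈ Set.range (X : Fin N → Po N k), ∃ (p : Polynomial (Po N k)) (m : ℕ),
      p.leadingCoeff = c₁ ^ m ∧ 1 ≤ p.natDegree ∧ ev2 G x p = 0 := by
    rintro _ ⟨i, rfl⟩
    obtain ⟨Q, m, h1, h2, h3⟩ := hint i
    exact ⟨Q, m, h1, h2, h3⟩
  obtain ⟨Q, hQ, hYQ, hQM⟩ := @key2 (Po N k) (Po N k) _ _ _ _ _ _
    ((aeval G : Po N k →ₐ[k] Po N k).toRingHom.toAlgebra) hinj c₁ W Y
    (RingHom.ker (eval z : Po N k →+* k)) hM (fun h => hzc h) hW.prime hzW hY.prime hYW hYc
    (Set.range (X : Fin N → Po N k))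
    (by
      let _ := ((aeval G : Po N k →ₐ[k] Po N k).toRingHom.toAlgebra)
      rw [eq_top_iff]
      intro q _
      induction q using MvPolynomial.induction_on with
      | C a =>
        have h : (C a : Po N k) = (aeval G : Po N k →ₐ[k] Po N k).toRingHom (C a) :=
          (aeval_C G a).symm
        rw [h]
        exact @Subalgebra.algebraMap_mem (Po N k) (Po N k) _ _
          ((aeval G : Po N k →ₐ[k] Po N k).toRingHom.toAlgebra) _ (C a)
      | add p q hp hq =>
        exact Subalgebra.add_mem _ (hp trivial) (hq trivial)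
      | mul_X p i hp =>
        exact Subalgebra.mul_mem _ (hp trivial) (Algebra.subset_adjoin ⟨i, rfl⟩))
    (by
      intro b hb
      obtain ⟨p, m, h1, h2, h3⟩ := hXgen b hb
      exact ⟨p, m, h1, h3⟩)
  have hQM' : ∀ q : Po N k, aeval G q ∈ Q ↔ eval z q = 0 := by
    intro q
    have h : q ∈ Q.comap (aeval G : Po N k →ₐ[k] Po N k).toRingHom ↔
        q ∈ RingHom.ker (eval z : Po N k →+* k) := by
      have := hQM
      exact Iff.of_eq (congrArg (fun I : Ideal (Po N k) => q ∈ I) this)
    exact h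
  -- the quotient is integral over `k`
  have hXint : ∀ i, IsIntegral k (Ideal.Quotient.mk Q (X i)) := by
    intro i
    obtain ⟨R, m, h1, h2, h3⟩ := hint i
    have hhom : (Ideal.Quotient.mk Q).comp (aeval G : Po N k →ₐ[k] Po N k).toRingHom =
        (algebraMap k (Po N k ⧸ Q)).comp (eval z) := by
      ext q
      · change Ideal.Quotient.mk Q (aeval G (C q : Po N k)) =
          algebraMap k (Po N k ⧸ Q) (eval z (C q : Po N k))
        rw [aeval_C, eval_C]
        rfl
      · change Ideal.Quotient.mk Q (aeval G (X q : Po N k)) =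
          algebraMap k (Po N k ⧸ Q) (eval z (X q : Po N k))
        rw [eval_X]
        have h4 := (hQM' (X q - C (z q))).mpr (by rw [map_sub, eval_X, eval_C, sub_self])
        rw [map_sub, aeval_C] at h4
        exact Ideal.Quotient.eq.mpr h4
    have h5 : (R.map (eval z)).leadingCoeff = eval z c₁ ^ m := by
      rw [Polynomial.leadingCoeff_map_of_leadingCoeff_ne_zero, h1, map_pow]
      rw [h1, map_pow]
      exact pow_ne_zero _ hzc
    have h6 : R.map (eval z) ≠ 0 := by
      intro h
      rw [h, Polynomial.leadingCoeff_zero] at h5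
      exact pow_ne_zero _ hzc h5.symm
    rw [← isAlgebraic_iff_isIntegral]
    refine ⟨R.map (eval z), h6, ?_⟩
    rw [Polynomial.aeval_def, Polynomial.eval₂_map, ← hhom, ← Polynomial.hom_eval₂]
    change Ideal.Quotient.mk Q (ev2 G (X i) R) = 0
    rw [h3, map_zero]
  have hint2 : Algebra.IsIntegral k (Po N k ⧸ Q) := by
    constructor
    intro x
    obtain ⟨q, rfl⟩ := Ideal.Quotient.mk_surjective x
    induction q using MvPolynomial.induction_on with
    | C a => exact isIntegral_algebraMap (x := a)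
    | add p q hp hq =>
      rw [map_add]
      exact hp.add hq
    | mul_X p i hp =>
      rw [map_mul]
      exact hp.mul (hXint i)
  have hmax : Q.IsMaximal := by
    rw [Ideal.Quotient.maximal_ideal_iff_isField_quotient]
    exact isField_of_isIntegral_of_isField' (Field.toIsField k)
  obtain ⟨P, hP⟩ := MvPolynomial.eq_vanishingIdeal_singleton_of_isMaximal k hmax
  have hPm : ∀ q : Po N k, q ∈ Q ↔ eval P q = 0 := by
    intro q
    rw [hP, mem_vanishingIdeal_singleton_iff]
    rfl
  refine ⟨P, (hPm Y).mp hYQ, ?_⟩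
  funext i
  have h1 := (hQM' (X i - C (z i))).mpr (by rw [map_sub, eval_X, eval_C, sub_self])
  rw [hPm, map_sub, aeval_X, map_sub] at h1
  have h2 : eval P (aeval G (C (z i) : Po N k)) = z i := by
    rw [eval_aeval, eval_C]
  rw [h2, sub_eq_zero] at h1
  exact h1

end Pool.Agent.H45.HIT
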